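import Pool.Agent.H314.ZN.Core
import Pool.Graph.R_seed8.H354R3.ZN.ACT
import Pool.Graph.R_seed8.H354R3.ZN.ACTS
import Pool.Graph.R_seed8.H354R3.ZN.ACTZ
import Pool.Graph.R_seed8.H354R3.ZN.ALEX
import Pool.Graph.R_seed8.H354R3.ZN.BC
import Pool.Graph.R_seed8.H354R3.ZN.BCR
import Pool.Graph.R_seed8.H354R3.ZN.BCZ
import Pool.Graph.R_seed8.H354R3.ZN.BM
import Pool.Graph.R_seed8.H354R3.ZN.BMR
import Pool.Graph.R_seed8.H354R3.ZN.BMZ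
import Pool.Graph.R_seed8.H354R3.ZN.CHAIN
import Pool.Graph.R_seed8.H354R3.ZN.CLB
import Pool.Graph.R_seed8.H354R3.ZN.COF
import Pool.Graph.R_seed8.H354R3.ZN.DENSE
import Pool.Graph.R_seed8.H354R3.ZN.DOT
import Pool.Graph.R_seed8.H354R3.ZN.FIBM
import Pool.Graph.R_seed8.H354R3.ZN.FIBR
import Pool.Graph.R_seed8.H354R3.ZN.FIBS
import Pool.Graph.R_seed8.H354R3.ZN.FIBV
import Pool.Graph.R_seed8.H354R3.ZN.FLEM
import Pool.Graph.R_seed8.H354R3.ZN.GEN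
import Pool.Graph.R_seed8.H354R3.ZN.GRAD
import Pool.Graph.R_seed8.H354R3.ZN.GRE
import Pool.Graph.R_seed8.H354R3.ZN.GRH
import Pool.Graph.R_seed8.H354R3.ZN.HDZ
import Pool.Graph.R_seed8.H354R3.ZN.HH
import Pool.Graph.R_seed8.H354R3.ZN.HOL
import Pool.Graph.R_seed8.H354R3.ZN.KSUM
import Pool.Graph.R_seed8.H354R3.ZN.LAY
import Pool.Graph.R_seed8.H354R3.ZN.LB
import Pool.Graph.R_seed8.H354R3.ZN.LB0
import Pool.Graph.R_seed8.H354R3.ZN.LCE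
import Pool.Graph.R_seed8.H354R3.ZN.LCI
import Pool.Graph.R_seed8.H354R3.ZN.LCM
import Pool.Graph.R_seed8.H354R3.ZN.LCS
import Pool.Graph.R_seed8.H354R3.ZN.LEV
import Pool.Graph.R_seed8.H354R3.ZN.LINE
import Pool.Graph.R_seed8.H354R3.ZN.LMC
import Pool.Graph.R_seed8.H354R3.ZN.LMR
import Pool.Graph.R_seed8.H354R3.ZN.LMZ
import Pool.Graph.R_seed8.H354R3.ZN.LOG
import Pool.Graph.R_seed8.H354R3.ZN.LPF
import Pool.Graph.R_seed8.H354R3.ZN.LPR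
import Pool.Graph.R_seed8.H354R3.ZN.LPZ
import Pool.Graph.R_seed8.H354R3.ZN.MES
import Pool.Graph.R_seed8.H354R3.ZN.MULT
import Pool.Graph.R_seed8.H354R3.ZN.PARA
import Pool.Graph.R_seed8.H354R3.ZN.PERM0
import Pool.Graph.R_pool_sql_team_seeded_f0cf7b00.H354R3.ZN.PERM1
import Pool.Graph.R_seed8.H354R3.ZN.PLZ
import Pool.Graph.R_seed8.H354R3.ZN.POL
import Pool.Graph.R_seed8.H354R3.ZN.POS
import Pool.Graph.R_seed8.H354R3.ZN.PTB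
import Pool.Graph.R_seed8.H354R3.ZN.PTL
import Pool.Graph.R_seed8.H354R3.ZN.SAMEV
import Pool.Graph.R_seed8.H354R3.ZN.SAND
import Pool.Graph.R_seed8.H354R3.ZN.SECF
import Pool.Graph.R_seed8.H354R3.ZN.SECZ
import Pool.Graph.R_seed8.H354R3.ZN.SITE
import Pool.Graph.R_seed8.H354R3.ZN.STEP
import Pool.Graph.R_seed8.H354R3.ZN.STRONG
import Pool.Graph.R_seed8.H354R3.ZN.SWAP
import Pool.Graph.R_seed8.H354R3.ZN.T1F
import Pool.Graph.R_seed8.H354R3.ZN.TILE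
import Pool.Graph.R_seed8.H354R3.ZN.UNI
import Pool.Graph.R_seed8.H354R3.ZN.UNR
import Pool.Graph.R_seed8.H354R3.ZN.VEXP
import Pool.Graph.R_seed8.H354R3.ZN.VOL
import Pool.Graph.R_seed8.H354R3.ZN.WSB
import Pool.Graph.R_seed8.H354R3.ZN.ZM
import Pool.Graph.R_seed8.H354R3.ZN.ZMZ
import Pool.Graph.R_seed8.H354R3.ZN.ZST

/-!
# Assembly of the project ZN (helper354's files; the missing step CORE is in `Core.lean`)
-/

set_option autoImplicit false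

namespace H354ZN

theorem a_DOT : S_DOT := t_DOT
theorem a_PERM0 : S_PERM0 := t_PERM0 a_DOT
theorem a_PERM1 : S_PERM1 := t_PERM1 a_DOT
theorem a_LINE : S_LINE := t_LINE a_DOT a_PERM0
theorem a_COF : S_COF := t_COF a_PERM0 a_PERM1
theorem a_CORE : S_CORE := t_CORE t_CHAIN t_PARA a_COF t_SITE a_LINE t_GEN t_SWAP a_PERM1
theorem a_KSUM : S_KSUM := t_KSUM a_PERM0 a_PERM1 t_SWAP
theorem a_LOG : S_LOG := t_LOG a_CORE a_KSUM a_PERM0 a_PERM1 t_SWAP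
theorem a_TILE : S_TILE := t_TILE t_GEN t_SITE
theorem a_MULT : S_MULT := t_MULT a_LOG a_TILE
theorem a_ACT : S_ACT := t_ACT a_PERM0 a_LINE
theorem a_ACTS : S_ACTS := t_ACTS a_PERM0 a_LINE
theorem a_ZM : S_ZM := t_ZM a_MULT a_ACT t_POS
theorem a_STRONG : S_STRONG := t_STRONG a_CORE a_KSUM a_PERM1
theorem a_VOL : S_VOL := t_VOL a_LOG a_TILE
theorem a_T1 : S_T1 := t_T1F a_STRONG a_LOG a_TILE a_VOL t_POS
theorem a_ZST : S_ZST := t_ZST a_ZM t_SAND t_HH t_WSB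
theorem a_GRAD : S_GRAD := t_GRAD t_HH
theorem a_VEXP : S_VEXP := t_VEXP t_HH
theorem a_POL : S_POL := t_POL t_HH a_VEXP
theorem a_PTB : S_PTB := t_PTB t_HH t_WSB
theorem a_PTL : S_PTL := t_PTL t_HH a_PTB a_GRAD
theorem a_ALEX : S_ALEX := t_ALEX t_HH a_VEXP a_POL a_PTB a_PTL t_GRH a_GRAD
theorem a_ACTZ : S_ACTZ := t_ACTZ t_HH t_WSB a_GRAD
theorem a_ZMZ : S_ZMZ := t_ZMZ t_HH t_WSB a_PTB a_ZST a_ALEX a_ACTZ a_GRAD
theorem a_LMZ : S_LMZ := t_LMZ t_HH a_PTB a_ZST a_ALEX a_GRAD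
theorem a_BMZ : S_BMZ := t_BMZ t_HH a_ZMZ
theorem a_BCZ : S_BCZ := t_BCZ t_HH a_ZMZ
theorem a_SECZ : S_SECZ := t_SECZ t_HH t_WSB a_ZMZ
theorem a_DENSE : S_DENSE := t_DENSE t_HH a_GRAD t_GRH
theorem a_SAMEV : S_SAMEV := t_SAMEV t_HH
theorem a_LPZ : S_LPZ := t_LPZ t_HH t_WSB a_LMZ a_ACTZ a_GRAD t_GRH a_DENSE a_SAMEV
theorem a_LMC : S_LMC := t_LMC t_HH a_GRAD t_GRH a_LMZ
theorem a_UNI : S_UNI := t_UNI t_HH a_LMZ a_GRAD t_GRH a_DENSE a_SAMEV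
theorem a_PLZ : S_PLZ := t_PLZ t_GRE t_HDZ t_HH
theorem a_LCS : S_LCS := t_LCS t_HH t_WSB
theorem a_LB0 : S_LB0 := t_LB0 t_HH a_LCS a_PLZ a_ZMZ
theorem a_FLEM : S_FLEM := t_FLEM t_HOL t_HH
theorem a_STEP : S_STEP := t_STEP t_HH t_FIBV t_FIBM t_FIBS t_FIBR a_FLEM a_LCS
theorem a_LB : S_LB := t_LB a_LB0 a_STEP
theorem a_LEV : S_LEV := t_LEV t_HH a_LCS t_CLB (t_LCM t_HH) (t_LCI t_HH)
theorem a_MES : S_MES := t_MES a_LB t_LAY a_LEV a_LCS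
theorem a_BCR : S_BCR := t_BCR a_MES (t_LCE t_HH)
theorem a_LMR : S_LMR := t_LMR t_HH a_ALEX a_GRAD a_LB
theorem a_LPR : S_LPR := t_LPR t_HH t_WSB a_LMR a_ACTZ a_GRAD t_GRH a_DENSE a_SAMEV
theorem a_UNR : S_UNR := t_UNR t_HH a_LMR a_GRAD t_GRH a_DENSE a_SAMEV
theorem a_BMR : S_BMR := t_BMR t_HH a_LB

end H354ZN
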