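import Mathlib

/-!
# Weights of a power diagram with prescribed masses (semi-discrete optimal transport)
-/

set_option autoImplicit false

open MeasureTheory Set Filter Topology

namespace Pool.Agent.H314.ZN

variable {J X : Type*} [Fintype J] [Nonempty J] [MeasurableSpace X]

/-- cell of `j` in the power diagram of the functions `c` with the weights `w`, inside `K` -/
def cell (K : Set X) (c : J → X → ℝ) (w : J → ℝ) (j : J) : Set X :=
  {x ∈ K | ∀ l, c l x + w l ≤ c j x + w j}

/-- upper envelope -/
noncomputable def env (c : J → X → ℝ) (w : J → ℝ) (x : X) : ℝ :=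
  Finset.univ.sup' Finset.univ_nonempty (fun j => c j x + w j)

omit [MeasurableSpace X] in
theorem le_env (c : J → X → ℝ) (w : J → ℝ) (x : X) (j : J) : c j x + w j ≤ env c w x :=
  Finset.le_sup' (fun j => c j x + w j) (Finset.mem_univ j)

omit [MeasurableSpace X] in
theorem env_le (c : J → X → ℝ) (w : J → ℝ) (x : X) (t : ℝ) (h : ∀ j, c j x + w j ≤ t) :
    env c w x ≤ t :=
  Finset.sup'_le _ _ (fun j _ => h j)

omit [MeasurableSpace X] in
theorem exists_env (c : J → X → ℝ) (w : J → ℝ) (x : X) : ∃ j, env c w x = c j x + w j := by
  obtain ⟨j, _, hj⟩ := Finset.exists_mem_eq_sup' Finset.univ_nonempty (fun j => c j x + w j)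
  exact ⟨j, hj⟩

omit [MeasurableSpace X] in
theorem env_abs (c : J → X → ℝ) (w : J → ℝ) (x : X) (B R : ℝ) (hB : ∀ j, |c j x| ≤ B)
    (hR : ∀ j, |w j| ≤ R) : |env c w x| ≤ B + R := by
  obtain ⟨j, hj⟩ := exists_env c w x
  rw [hj]
  exact (abs_add_le _ _).trans (add_le_add (hB j) (hR j))

theorem env_meas (c : J → X → ℝ) (hc : ∀ j, Measurable (c j)) (w : J → ℝ) :
    Measurable (env c w) := by
  have h : env c w = Finset.univ.sup' Finset.univ_nonempty (fun j x => c j x + w j) := by
    ext x
    rw [Finset.sup'_apply]
    rfl
  rw [h]
  refine Finset.measurable_sup' Finset.univ_nonempty ?_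
  intro j _
  exact (hc j).add_const _

omit [MeasurableSpace X] in
theorem env_cont (c : J → X → ℝ) (x : X) : Continuous (fun w => env c w x) := by
  unfold env
  refine Continuous.finset_sup'_apply Finset.univ_nonempty ?_
  intro j _
  exact continuous_const.add (continuous_apply j)

theorem exists_weights (μ : Measure X) (K : Set X) (hK : MeasurableSet K)
    (hμ : μ K ≠ ⊤) (c : J → X → ℝ) (hc : ∀ j, Measurable (c j)) (B : ℝ)
    (hB : ∀ x ∈ K, ∀ j, |c j x| ≤ B) (ν : J → ℝ) (hν : ∀ j, 0 < ν j)
    (hs : ∑ j, ν j = μ.real K) :
    ∃ w : J → ℝ, ∀ j, ν j ≤ μ.real (cell K c w j) := by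
  classical
  have hK1 : 0 < μ.real K := by
    rw [← hs]
    exact Finset.sum_pos (fun j _ => hν j) Finset.univ_nonempty
  have hKne : K.Nonempty := by
    rw [Set.nonempty_iff_ne_empty]
    rintro rfl
    simp at hK1
  obtain ⟨x0, hx0⟩ := hKne
  have hB0 : 0 ≤ B := (abs_nonneg _).trans (hB x0 hx0 (Classical.arbitrary J))
  set R : ℝ := 2 * B + 1 with hR
  have hR0 : 0 < R := by rw [hR]; linarith
  set W : Set (J → ℝ) := {w | ∀ j, w j ∈ Icc (0:ℝ) R} with hW
  have hWc : IsCompact W := by
    have h1 : IsCompact (Set.pi univ (fun _ : J => Icc (0:ℝ) R)) :=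
      isCompact_univ_pi (fun _ => isCompact_Icc)
    have h3 : W = Set.pi univ (fun _ : J => Icc (0:ℝ) R) := by
      ext w
      simp only [hW, mem_univ_pi, mem_ofPred_eq]
    rw [h3]
    exact h1
  have hWne : W.Nonempty := ⟨fun _ => 0, fun _ => ⟨le_rfl, hR0.le⟩⟩
  set Ψ : (J → ℝ) → ℝ := fun w => ∑ j, ν j * w j - ∫ x in K, env c w x ∂μ with hΨ
  have hKfin : IsFiniteMeasure (μ.restrict K) := ⟨by simpa using hμ.lt_top⟩
  have hbd : ∀ w ∈ W, ∀ᵐ x ∂(μ.restrict K), ‖env c w x‖ ≤ B + R := by
    intro w hw
    filter_upwards [ae_restrict_mem hK] with x hx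
    exact env_abs c w x B R (hB x hx) (fun j => by
      rw [abs_of_nonneg (hw j).1]
      exact (hw j).2)
  have hint : ∀ w ∈ W, Integrable (env c w) (μ.restrict K) := by
    intro w hw
    refine Integrable.mono' (integrable_const (B + R)) (env_meas c hc w).aestronglyMeasurable ?_
    exact hbd w hw
  have hΨc : ContinuousOn Ψ W := by
    rw [hΨ]
    refine ContinuousOn.sub ?_ ?_
    · exact (continuous_finsetSum _ fun j _ =>
        continuous_const.mul (continuous_apply j)).continuousOn
    · refine continuousOn_of_dominated (bound := fun _ => B + R) ?_ ?_ ?_ ?_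
      · intro w _
        exact (env_meas c hc w).aestronglyMeasurable
      · exact hbd
      · exact integrable_const _
      · exact Eventually.of_forall fun x => (env_cont c x).continuousOn
  obtain ⟨w0, hw0, hmax⟩ := hWc.exists_isMaxOn hWne hΨc
  -- shift such that the minimum is zero
  obtain ⟨j1, -, hj1⟩ := Finset.exists_min_image Finset.univ w0 Finset.univ_nonempty
  set w : J → ℝ := fun j => w0 j - w0 j1 with hw
  have hwW : w ∈ W := by
    refine fun j => ⟨?_, ?_⟩
    · simp only [hw]; linarith [hj1 j (Finset.mem_univ j)]
    · simp only [hw]; linarith [(hw0 j).2, (hw0 j1).1]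
  have hΨw : Ψ w = Ψ w0 := by
    have e1 : ∀ x, env c w x = env c w0 x - w0 j1 := by
      intro x
      apply le_antisymm
      · refine env_le c w x _ fun j => ?_
        simp only [hw]
        linarith [le_env c w0 x j]
      · have : env c w0 x ≤ env c w x + w0 j1 := by
          refine env_le c w0 x _ fun j => ?_
          have := le_env c w x j
          simp only [hw] at this
          linarith
        linarith
    simp only [hΨ]
    simp_rw [e1]
    rw [integral_sub (hint w0 hw0) (integrable_const _)]
    simp only [hw, mul_sub, Finset.sum_sub_distrib, ← Finset.sum_mul, integral_const, smul_eq_mul]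
    rw [measureReal_restrict_apply_univ, hs]
    ring
  have hmax' : ∀ v ∈ W, Ψ v ≤ Ψ w := by
    intro v hv
    rw [hΨw]
    exact hmax hv
  -- the key estimate
  have key : ∀ j0, w j0 < R → ν j0 ≤ μ.real (cell K c w j0) := by
    intro j0 hj0
    set A : ℝ → Set X := fun t => {x ∈ K | ∀ l, l ≠ j0 → c l x + w l ≤ c j0 x + w j0 + t} with hA
    have hAm : ∀ t, MeasurableSet (A t) := by
      intro t
      simp only [hA, ofPred_and, ofPred_forall]
      refine hK.inter (MeasurableSet.iInter fun l => MeasurableSet.iInter fun _ => ?_)
      exact measurableSet_le ((hc l).add_const _) (((hc j0).add_const _).add_const _)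
    have hAt : ∀ t, 0 < t → t ≤ R - w j0 → ν j0 ≤ μ.real (A t) := by
      intro t ht0 ht1
      set v : J → ℝ := fun j => w j + if j = j0 then t else 0 with hv
      have hvW : v ∈ W := by
        refine fun j => ?_
        simp only [hv]
        split_ifs with hj
        · rw [hj]
          exact ⟨by linarith [(hwW j0).1], by linarith⟩
        · rw [add_zero]; exact hwW j
      have h1 := hmax' v hvW
      simp only [hΨ] at h1
      have h2 : ∑ j, ν j * v j = ∑ j, ν j * w j + ν j0 * t := by
        simp only [hv, mul_add, Finset.sum_add_distrib]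
        congr 1
        simp
      rw [h2] at h1
      have h3 : ∫ x in K, env c v x ∂μ - ∫ x in K, env c w x ∂μ ≤ t * μ.real (A t) := by
        rw [← integral_sub (hint v hvW) (hint w hwW)]
        have h4 : ∫ x in K, (A t).indicator (fun _ => t) x ∂μ = t * μ.real (A t) := by
          rw [integral_indicator (hAm t), Measure.restrict_restrict (hAm t)]
          have : A t ∩ K = A t := inter_eq_left.mpr (fun x hx => hx.1)
          rw [this, integral_const, smul_eq_mul, measureReal_restrict_apply_univ, mul_comm]
        rw [← h4]
        refine integral_mono_ae ((hint v hvW).sub (hint w hwW))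
          ((integrable_const t).indicator (hAm t)) ?_
        filter_upwards [ae_restrict_mem hK] with x hx
        by_cases hxA : x ∈ A t
        · rw [indicator_of_mem hxA]
          have : env c v x ≤ env c w x + t := by
            refine env_le c v x _ fun j => ?_
            simp only [hv]
            have := le_env c w x j
            split_ifs <;> linarith
          show env c v x - env c w x ≤ t
          linarith
        · rw [indicator_of_notMem hxA]
          have h5 : ∃ l, l ≠ j0 ∧ c j0 x + w j0 + t < c l x + w l := by
            by_contra hcon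
            push Not at hcon
            exact hxA ⟨hx, hcon⟩
          obtain ⟨l, hl, hlt⟩ := h5
          have : env c v x ≤ env c w x := by
            refine env_le c v x _ fun j => ?_
            simp only [hv]
            split_ifs with hj
            · have := le_env c w x l
              rw [hj]
              linarith
            · have := le_env c w x j
              linarith
          show env c v x - env c w x ≤ 0
          linarith
      have h7 : ν j0 * t ≤ μ.real (A t) * t := by linarith
      exact le_of_mul_le_mul_right h7 ht0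
    -- limit t → 0
    have hA0 : ν j0 ≤ μ.real (A 0) := by
      set τ : ℕ → ℝ := fun k => (R - w j0) / (k + 1) with hτ
      have hRw : 0 < R - w j0 := by linarith
      have hτ0 : ∀ k, 0 < τ k := fun k => by rw [hτ]; positivity
      have hτ1 : ∀ k, τ k ≤ R - w j0 := fun k => by
        rw [hτ]
        exact div_le_self hRw.le (by linarith [Nat.cast_nonneg (α := ℝ) k])
      have hτlim : Tendsto τ atTop (𝓝 0) := by
        rw [hτ]
        exact Tendsto.div_atTop tendsto_const_nhds
          (tendsto_atTop_add_const_right _ _ tendsto_natCast_atTop_atTop)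
      have hanti : Antitone (fun k => A (τ k)) := by
        intro k l hkl x hx
        refine ⟨hx.1, fun i hi => (hx.2 i hi).trans ?_⟩
        have : τ l ≤ τ k := by
          rw [hτ]
          simp only
          gcongr
        linarith
      have hinter : ⋂ k, A (τ k) = A 0 := by
        ext x
        constructor
        · intro hx
          rw [mem_iInter] at hx
          refine ⟨(hx 0).1, fun l hl => ?_⟩
          have : Tendsto (fun k => c j0 x + w j0 + τ k) atTop (𝓝 (c j0 x + w j0 + 0)) :=
            tendsto_const_nhds.add hτlim
          exact ge_of_tendsto this (Eventually.of_forall fun k => (hx k).2 l hl)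
        · intro hx
          rw [mem_iInter]
          intro k
          exact ⟨hx.1, fun l hl => (hx.2 l hl).trans (by linarith [hτ0 k])⟩
      have hlim := tendsto_measure_iInter_atTop (μ := μ) (s := fun k => A (τ k))
        (fun k => (hAm _).nullMeasurableSet) hanti
        ⟨0, ne_top_of_le_ne_top hμ (measure_mono fun x hx => hx.1)⟩
      rw [hinter] at hlim
      have hA0t : μ (A 0) ≠ ⊤ := ne_top_of_le_ne_top hμ (measure_mono fun x hx => hx.1)
      have hlim2 := (ENNReal.tendsto_toReal hA0t).comp hlim
      exact ge_of_tendsto hlim2 (Eventually.of_forall fun k => hAt (τ k) (hτ0 k) (hτ1 k))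
    have hsub : A 0 ⊆ cell K c w j0 := by
      intro x hx
      refine ⟨hx.1, fun l => ?_⟩
      by_cases hl : l = j0
      · rw [hl]
      · have := hx.2 l hl
        rwa [add_zero] at this
    refine hA0.trans ?_
    exact ENNReal.toReal_mono (ne_top_of_le_ne_top hμ (measure_mono fun x hx => hx.1))
      (measure_mono hsub)
  have hwR : ∀ j, w j < R := by
    have h0 : w j1 = 0 := by simp [hw]
    have h1 := key j1 (by rw [h0]; exact hR0)
    have h2 : 0 < μ.real (cell K c w j1) := (hν j1).trans_le h1
    have h3 : (cell K c w j1).Nonempty := by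
      rw [Set.nonempty_iff_ne_empty]
      intro h
      rw [h] at h2
      simp at h2
    obtain ⟨x, hxK, hx⟩ := h3
    intro l
    have h4 := hx l
    rw [h0] at h4
    have h5 := abs_le.mp (hB x hxK l)
    have h6 := abs_le.mp (hB x hxK j1)
    rw [hR]
    linarith [h5.1, h6.2]
  exact ⟨w, fun j => key j (hwR j)⟩

end Pool.Agent.H314.ZN
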