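import Pool.Graph.R_seed8.H354R3.ZN.Defs
import Pool.Agent.H314.ZN.Weights

/-!
# CORE: the inequality for power diagrams whose sites are the vertices of an arrangement
-/

set_option autoImplicit false

open MeasureTheory
open scoped Matrix Pointwise

namespace H354ZN

theorem CORE_amgm (m : ℕ) (g : Fin (m + 1) → ℝ) (hg : ∀ i, 0 ≤ g i) :
    ((m : ℝ) + 1) * (∏ i, g i) ^ (1 / ((m : ℝ) + 1)) ≤ ∑ i, g i := by
  have hm : (0 : ℝ) < (m : ℝ) + 1 := by positivity
  have h := Real.geom_mean_le_arith_mean_weighted (Finset.univ : Finset (Fin (m + 1)))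
    (fun _ => 1 / ((m : ℝ) + 1)) g (fun _ _ => by positivity)
    (by simp [Finset.sum_const]; field_simp) (fun i _ => hg i)
  rw [Real.finset_prod_rpow _ _ (fun i _ => hg i), ← Finset.mul_sum] at h
  have h2 := mul_le_mul_of_nonneg_left h hm.le
  have h3 : ((m : ℝ) + 1) * (1 / ((m : ℝ) + 1) * ∑ i, g i) = ∑ i, g i := by
    field_simp
  rw [h3] at h2
  exact h2

theorem t_CORE (hCHAIN : S_CHAIN) (hPARA : S_PARA) (hCOF : S_COF) (hSITE : S_SITE)
    (hLINE : S_LINE) (hGEN : S_GEN) (hSWAP : S_SWAP) (hPERM1 : S_PERM1) : S_CORE := by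
  classical
  intro m N z L s w ν hL hD hs hw hwid hν hsum
  obtain ⟨c, hc⟩ := hGEN m N z
  -- the good sets
  set G : Finset (Finset (Fin N)) := (Ps (m + 1) N).filter fun A => DD z A ≠ 0 with hG
  have hGmem : ∀ A, A ∈ G ↔ A ∈ Ps (m + 1) N ∧ DD z A ≠ 0 := fun A => by
    rw [hG, Finset.mem_filter]
  have hPs : ∀ k (A : Finset (Fin N)), A ∈ Ps k N ↔ A.card = k := fun k A => by
    unfold Ps
    rw [Finset.mem_powersetCard]
    exact ⟨fun h => h.2, fun h => ⟨Finset.subset_univ _, h⟩⟩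
  have hGne : G.Nonempty := by
    by_contra hcon
    rw [Finset.not_nonempty_iff_eq_empty] at hcon
    have : Dt z = 0 := by
      unfold Dt
      refine Finset.sum_eq_zero fun A hA => ?_
      by_contra h
      have : A ∈ G := (hGmem A).2 ⟨hA, h⟩
      rw [hcon] at this
      exact absurd this (Finset.notMem_empty _)
    linarith
  have hSite : ∀ A : Finset (Fin N), ∃ ξ : Fin (m + 1) → ℝ, DD z A ≠ 0 →
      ∀ i ∈ A, z i ⬝ᵥ ξ = c i := by
    intro A
    by_cases h : DD z A = 0
    · exact ⟨0, fun h' => absurd h h'⟩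
    · obtain ⟨ξ, hξ⟩ := hSITE m N z A c h
      exact ⟨ξ, fun _ => hξ⟩
  choose ξ hξ using hSite
  -- the power diagram
  let J := {A : Finset (Fin N) // A ∈ G}
  haveI : Nonempty J := ⟨⟨hGne.choose, hGne.choose_spec⟩⟩
  let cf : J → (Fin (m + 1) → ℝ) → ℝ := fun A x => ξ A.1 ⬝ᵥ x
  have hcfc : ∀ j, Continuous (cf j) := fun j => by
    show Continuous fun x => ξ j.1 ⬝ᵥ x
    unfold dotProduct
    fun_prop
  have hbd : ∃ B : ℝ, ∀ x ∈ L, ∀ j : J, |cf j x| ≤ B := by
    have h1 : ∀ j : J, ∃ B : ℝ, ∀ x ∈ L, |cf j x| ≤ B := fun j => by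
      obtain ⟨B, hB⟩ := hL.exists_bound_of_continuousOn (hcfc j).continuousOn
      exact ⟨B, fun x hx => by simpa [Real.norm_eq_abs] using hB x hx⟩
    choose B hB using h1
    refine ⟨∑ j, |B j|, fun x hx j => (hB j x hx).trans ((le_abs_self _).trans ?_)⟩
    exact Finset.single_le_sum (f := fun j => |B j|) (fun i _ => abs_nonneg _) (Finset.mem_univ j)
  obtain ⟨B, hB⟩ := hbd
  have hsum' : ∑ j : J, ν j.1 = volume.real L := by
    rw [← hsum, Finset.sum_coe_sort G ν, hG, Finset.sum_filter]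
    refine Finset.sum_congr rfl fun A _ => ?_
    by_cases h : DD z A = 0 <;> simp [h]
  obtain ⟨wt, hwt⟩ := Pool.Agent.H314.ZN.exists_weights (J := J) volume L hL.measurableSet
    hL.measure_ne_top cf (fun j => (hcfc j).measurable) B hB (fun j => ν j.1)
    (fun j => hν j.1 ((hGmem _).1 j.2).1 ((hGmem _).1 j.2).2) hsum'
  set T : J → Set (Fin (m + 1) → ℝ) := fun j => Pool.Agent.H314.ZN.cell L cf wt j with hT
  have hTL : ∀ j, T j ⊆ L := fun j x hx => hx.1
  have hTne : ∀ j, (T j).Nonempty := by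
    intro j
    rw [Set.nonempty_iff_ne_empty]
    intro h
    have h1 := hwt j
    have h2 := hν j.1 ((hGmem _).1 j.2).1 ((hGmem _).1 j.2).2
    have h3 : Pool.Agent.H314.ZN.cell L cf wt j = ∅ := h
    rw [h3] at h1
    simp at h1
    linarith
  -- widths of the cells
  have hW : ∀ I : Finset (Fin N), ∃ W : Finset (Fin N) → ℝ, I ∈ Ps m N →
      (∀ A, 0 ≤ W A) ∧
      (∀ A : J, I ⊆ A.1 → ∀ x ∈ T A, ∀ y ∈ T A, X z I ⬝ᵥ x - X z I ⬝ᵥ y ≤ W A.1) ∧
      ∑ j ∈ Iᶜ, (if DD z (insert j I) = 0 then 0 else W (insert j I)) ≤ w I := by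
    intro I
    by_cases hI : I ∈ Ps m N
    swap
    · exact ⟨fun _ => 0, fun h => absurd h hI⟩
    have hIc : I.card = m := (hPs _ _).1 hI
    have hins : ∀ j ∈ Iᶜ, DD z (insert j I) ≠ 0 → insert j I ∈ G := by
      intro j hj hd
      rw [hGmem, hPs]
      refine ⟨?_, hd⟩
      rw [Finset.card_insert_of_notMem (Finset.mem_compl.1 hj), hIc]
    let κ := {A : J // I ⊆ A.1}
    by_cases hX : X z I = 0
    · refine ⟨fun _ => 0, fun _ => ⟨fun _ => le_rfl, ?_, ?_⟩⟩
      · intro A _ x _ y _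
        rw [hX]
        simp
      · simpa using hw I hI
    -- the position of the sites on the line
    have hpos : ∀ k l : κ, ∃ τ : ℝ, ξ k.1.1 - ξ l.1.1 = τ • X z I := by
      intro k l
      refine hLINE m N z I _ hIc hX ?_
      intro i hi
      rw [dotProduct_sub, hξ k.1.1 ((hGmem _).1 k.1.2).2 i (k.2 hi),
        hξ l.1.1 ((hGmem _).1 l.1.2).2 i (l.2 hi), sub_self]
    by_cases hκ : Nonempty κ
    swap
    · refine ⟨fun _ => 0, fun _ => ⟨fun _ => le_rfl, ?_, ?_⟩⟩
      · intro A hA x _ y _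
        exact absurd ⟨⟨A, hA⟩⟩ hκ
      · simpa using hw I hI
    obtain ⟨k0⟩ := hκ
    choose t ht using fun k => hpos k k0
    have hXX : 0 < X z I ⬝ᵥ X z I := by
      have h1 : 0 ≤ X z I ⬝ᵥ X z I := by
        unfold dotProduct
        exact Finset.sum_nonneg fun i _ => mul_self_nonneg _
      rcases h1.lt_or_eq with h | h
      · exact h
      · exact absurd (dotProduct_self_eq_zero.1 h.symm) hX
    have htinj : Function.Injective t := by
      intro k l hkl
      by_contra hne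
      have hne' : k.1.1 ≠ l.1.1 := fun h => hne (Subtype.ext (Subtype.ext h))
      have h1 : ξ k.1.1 = ξ l.1.1 := by
        have h2 := ht k
        have h3 := ht l
        rw [hkl] at h2
        have h4 : ξ k.1.1 - ξ k0.1.1 = ξ l.1.1 - ξ k0.1.1 := by rw [h2, h3]
        exact sub_left_injective h4
      refine hc k.1.1 l.1.1 ((hGmem _).1 k.1.2).2 ((hGmem _).1 l.1.2).2 hne' (ξ k.1.1)
        (hξ k.1.1 ((hGmem _).1 k.1.2).2) ?_
      rw [h1]
      exact hξ l.1.1 ((hGmem _).1 l.1.2).2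
    -- bounds
    have hLne : L.Nonempty := ⟨_, hTL _ (hTne k0.1).choose_spec⟩
    have hcont : Continuous fun x : Fin (m + 1) → ℝ => X z I ⬝ᵥ x := by
      unfold dotProduct
      fun_prop
    obtain ⟨xa, hxa, hxa'⟩ := hL.exists_isMinOn hLne hcont.continuousOn
    obtain ⟨xb, hxb, hxb'⟩ := hL.exists_isMaxOn hLne hcont.continuousOn
    obtain ⟨W, hW0, hW1, hW2⟩ := hCHAIN κ t
      (fun k => (fun x : Fin (m + 1) → ℝ => X z I ⬝ᵥ x) '' T k.1) (X z I ⬝ᵥ xa) (X z I ⬝ᵥ xb)
      (hxa' hxb) htinj (by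
        rintro k l hlt _ ⟨x, hx, rfl⟩ _ ⟨y, hy, rfl⟩
        have h1 : cf l.1 x + wt l.1 ≤ cf k.1 x + wt k.1 := hx.2 l.1
        have h2 : cf k.1 y + wt k.1 ≤ cf l.1 y + wt l.1 := hy.2 k.1
        have h3 : ξ k.1.1 - ξ l.1.1 = (t k - t l) • X z I := by
          have e1 : ξ k.1.1 - ξ l.1.1 = (ξ k.1.1 - ξ k0.1.1) - (ξ l.1.1 - ξ k0.1.1) := by abel
          rw [e1, ht k, ht l, sub_smul]
        have h4 : ∀ v : Fin (m + 1) → ℝ, cf k.1 v - cf l.1 v = (t k - t l) * (X z I ⬝ᵥ v) := by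
          intro v
          show ξ k.1.1 ⬝ᵥ v - ξ l.1.1 ⬝ᵥ v = _
          rw [← sub_dotProduct, h3, smul_dotProduct, smul_eq_mul]
        have h5 := h4 x
        have h6 := h4 y
        have h7 : 0 < t k - t l := sub_pos.2 hlt
        show X z I ⬝ᵥ y ≤ X z I ⬝ᵥ x
        have h8 : (t k - t l) * (X z I ⬝ᵥ y) ≤ (t k - t l) * (X z I ⬝ᵥ x) := by linarith
        exact le_of_mul_le_mul_left h8 h7) (fun k => (hTne k.1).image _) (by
        rintro k _ ⟨x, hx, rfl⟩
        exact ⟨hxa' (hTL _ hx), hxb' (hTL _ hx)⟩)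
    refine ⟨fun A => if h : A ∈ G then (if h' : I ⊆ A then W ⟨⟨A, h⟩, h'⟩ else 0) else 0,
      fun _ => ⟨?_, ?_, ?_⟩⟩
    · intro A
      show 0 ≤ (if h : A ∈ G then (if h' : I ⊆ A then
        W ⟨⟨A, h⟩, h'⟩ else 0) else 0)
      split_ifs
      · exact hW0 _
      · exact le_rfl
      · exact le_rfl
    · intro A hIA x hx y hy
      show X z I ⬝ᵥ x - X z I ⬝ᵥ y ≤ (if h : A.1 ∈ G then (if h' : I ⊆ A.1 then
        W ⟨⟨A.1, h⟩, h'⟩ else 0) else 0)
      rw [dif_pos A.2, dif_pos hIA]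
      exact hW1 ⟨A, hIA⟩ _ ⟨x, hx, rfl⟩ _ ⟨y, hy, rfl⟩
    · have hle : X z I ⬝ᵥ xb - X z I ⬝ᵥ xa ≤ w I := hwid I hI xb hxb xa hxa
      refine le_trans ?_ (hW2.trans hle)
      -- reindex
      rw [← Finset.sum_filter_add_sum_filter_not Iᶜ (fun j => DD z (insert j I) = 0)]
      have e0 : ∑ j ∈ Iᶜ.filter (fun j => DD z (insert j I) = 0),
          (if DD z (insert j I) = 0 then (0 : ℝ) else
            (if h : insert j I ∈ G then (if h' : I ⊆ insert j I then
              W ⟨⟨insert j I, h⟩, h'⟩ else 0) else 0)) = 0 := by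
        refine Finset.sum_eq_zero fun j hj => ?_
        rw [if_pos (Finset.mem_filter.1 hj).2]
      rw [e0, zero_add]
      have hmem : ∀ j ∈ Iᶜ.filter (fun j => ¬ DD z (insert j I) = 0), insert j I ∈ G := by
        intro j hj
        rw [Finset.mem_filter] at hj
        exact hins j hj.1 hj.2
      let φ : {j // j ∈ Iᶜ.filter (fun j => ¬ DD z (insert j I) = 0)} → κ := fun j =>
        ⟨⟨insert j.1 I, hmem j.1 j.2⟩, Finset.subset_insert _ _⟩
      have hφ : Function.Injective φ := by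
        intro i j hij
        have h1 : insert i.1 I = insert j.1 I := congrArg (fun k : κ => k.1.1) hij
        have hi : i.1 ∉ I := Finset.mem_compl.1 (Finset.mem_filter.1 i.2).1
        have h2 : i.1 ∈ insert j.1 I := by
          rw [← h1]
          exact Finset.mem_insert_self _ _
        rcases Finset.mem_insert.1 h2 with h3 | h3
        · exact Subtype.ext h3
        · exact absurd h3 hi
      rw [← Finset.sum_coe_sort]
      have e1 : ∑ j : {j // j ∈ Iᶜ.filter (fun j => ¬ DD z (insert j I) = 0)},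
          (if DD z (insert j.1 I) = 0 then (0 : ℝ) else
            (if h : insert j.1 I ∈ G then (if h' : I ⊆ insert j.1 I then
              W ⟨⟨insert j.1 I, h⟩, h'⟩ else 0) else 0)) = ∑ j, W (φ j) := by
        refine Finset.sum_congr rfl fun j _ => ?_
        rw [if_neg (Finset.mem_filter.1 j.2).2, dif_pos (hmem j.1 j.2),
          dif_pos (Finset.subset_insert _ _)]
      rw [e1]
      have e2 : ∑ j, W (φ j) = ∑ k ∈ (Finset.univ.map ⟨φ, hφ⟩), W k := by
        rw [Finset.sum_map]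
        rfl
      rw [e2]
      exact Finset.sum_le_sum_of_subset_of_nonneg (Finset.subset_univ _) fun k _ _ => hW0 k
  choose W hW using hW
  -- the inequality on each cell
  have hcell : ∀ A ∈ Ps (m + 1) N, ((m : ℝ) + 1) *
      (if DD z A = 0 then 0 else
        ((∏ j ∈ A, s (A.erase j)) * (DD z A ^ m * ν A)) ^ (1 / ((m : ℝ) + 1))) ≤
      ∑ j ∈ A, (if DD z (insert j (A.erase j)) = 0 then 0 else
        s (A.erase j) * W (A.erase j) (insert j (A.erase j))) := by
    intro A hA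
    have hAc : A.card = m + 1 := (hPs _ _).1 hA
    by_cases hd : DD z A = 0
    · rw [if_pos hd, mul_zero]
      refine Finset.sum_nonneg fun j hj => ?_
      rw [Finset.insert_erase hj, if_pos hd]
    rw [if_neg hd]
    have hAG : A ∈ G := (hGmem A).2 ⟨hA, hd⟩
    have her : ∀ j ∈ A, A.erase j ∈ Ps m N := by
      intro j hj
      rw [hPs, Finset.card_erase_of_mem hj, hAc]
      rfl
    have hr : ∑ j ∈ A, (if DD z (insert j (A.erase j)) = 0 then 0 else
        s (A.erase j) * W (A.erase j) (insert j (A.erase j))) =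
        ∑ j ∈ A, s (A.erase j) * W (A.erase j) A := by
      refine Finset.sum_congr rfl fun j hj => ?_
      rw [Finset.insert_erase hj, if_neg hd]
    rw [hr]
    set e := A.orderEmbOfFin hAc with he
    have hem : ∀ i, e i ∈ A := fun i => Finset.orderEmbOfFin_mem A hAc i
    have himg : A = Finset.univ.map e.toEmbedding := by
      rw [he]
      ext j
      rw [Finset.mem_map]
      constructor
      · intro hj
        have : j ∈ Set.range (A.orderEmbOfFin hAc) := by
          rw [Finset.range_orderEmbOfFin]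
          exact hj
        obtain ⟨i, hi⟩ := this
        exact ⟨i, Finset.mem_univ _, hi⟩
      · rintro ⟨i, _, hi⟩
        rw [← hi]
        exact Finset.orderEmbOfFin_mem A hAc i
    have hsumA : ∀ f : Fin N → ℝ, ∑ j ∈ A, f j = ∑ i, f (e i) := by
      intro f
      conv_lhs => rw [himg]
      rw [Finset.sum_map]
      rfl
    have hprodA : ∀ f : Fin N → ℝ, ∏ j ∈ A, f j = ∏ i, f (e i) := by
      intro f
      conv_lhs => rw [himg]
      rw [Finset.prod_map]
      rfl
    have hp := hPARA (m + 1) (fun i => X z (A.erase (e i))) (T ⟨A, hAG⟩)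
      (fun i => W (A.erase (e i)) A) (fun i => (hW _ (her _ (hem i))).1 A) (by
        intro i x hx y hy
        exact (hW _ (her _ (hem i))).2.1 ⟨A, hAG⟩ (Finset.erase_subset _ _) x hx y hy)
    rw [hCOF m N z A hAc hd] at hp
    have hDA : 0 ≤ DD z A := by
      unfold DD
      rw [dif_pos hAc]
      exact abs_nonneg _
    have hvol : ν A ≤ volume.real (T ⟨A, hAG⟩) := hwt ⟨A, hAG⟩
    have h1 : DD z A ^ m * ν A ≤ ∏ i, W (A.erase (e i)) A :=
      (mul_le_mul_of_nonneg_left hvol (pow_nonneg hDA m)).trans hp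
    have hs0 : ∀ i, 0 ≤ s (A.erase (e i)) := fun i => hs _ (her _ (hem i))
    have h2 : (∏ j ∈ A, s (A.erase j)) * (DD z A ^ m * ν A) ≤
        ∏ i, (s (A.erase (e i)) * W (A.erase (e i)) A) := by
      rw [hprodA, Finset.prod_mul_distrib]
      exact mul_le_mul_of_nonneg_left h1 (Finset.prod_nonneg fun i _ => hs0 i)
    have hnn : 0 ≤ (∏ j ∈ A, s (A.erase j)) * (DD z A ^ m * ν A) := by
      rw [hprodA]
      exact mul_nonneg (Finset.prod_nonneg fun i _ => hs0 i)
        (mul_nonneg (pow_nonneg hDA m) (hν A hA hd).le)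
    rw [hsumA]
    refine le_trans ?_ (CORE_amgm m (fun i => s (A.erase (e i)) * W (A.erase (e i)) A)
      (fun i => mul_nonneg (hs0 i) ((hW _ (her _ (hem i))).1 A)))
    refine mul_le_mul_of_nonneg_left ?_ (by positivity)
    exact Real.rpow_le_rpow hnn h2 (by positivity)
  refine (Finset.sum_le_sum hcell).trans ?_
  have hsw := hSWAP m N (fun I j => if DD z (insert j I) = 0 then 0 else
    s I * W I (insert j I))
  rw [← hsw]
  refine Finset.sum_le_sum fun I hI => ?_
  have h3 : ∑ j ∈ Iᶜ, (if DD z (insert j I) = 0 then 0 else s I * W I (insert j I)) =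
      s I * ∑ j ∈ Iᶜ, (if DD z (insert j I) = 0 then 0 else W I (insert j I)) := by
    rw [Finset.mul_sum]
    refine Finset.sum_congr rfl fun j _ => ?_
    split_ifs
    · rw [mul_zero]
    · rfl
  rw [h3]
  exact mul_le_mul_of_nonneg_left (hW I hI).2.2 (hs I hI)

end H354ZN
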