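import Pool.Agent.H314.ZN.Lin

/-!
# The `L_p`-Brunn-Minkowski inequality and uniqueness in the `L_p`-Minkowski problem from the
log-Minkowski inequality of the given pairs

The two long proofs are those of `Pool.Graph.R_seed8.H354R3.ZN.LPR` and
`Pool.Graph.R_seed8.H354R3.ZN.UNR`, with the log-Minkowski inequality as a hypothesis.
-/

set_option autoImplicit false

open MeasureTheory Filter
open scoped Matrix Pointwise Topology ENNReal

namespace H354ZN

open LPZ in
theorem lp_of_LM {n : ℕ} {K C : Set (EuclideanSpace ℝ (Fin n))} {p α β : ℝ} (hn : 1 ≤ n)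
    (hK : SB K) (hC : SB C) (hp : 0 < p) (hp1 : p < 1) (hα : 0 < α) (hβ : 0 < β)
    (hMK : LM (Wu (cmb p α β (hh K) (hh C))) K) (hMC : LM (Wu (cmb p α β (hh K) (hh C))) C) :
    α * (volume K).toReal ^ (p / n) + β * (volume C).toReal ^ (p / n) ≤
    (volume {x : EuclideanSpace ℝ (Fin n) | ∀ u : EuclideanSpace ℝ (Fin n), ‖u‖ = 1 →
      inner ℝ x u ≤ (α * hh K u ^ p + β * hh C u ^ p) ^ (1 / p)}).toReal ^ (p / n) ∧
  ((volume {x : EuclideanSpace ℝ (Fin n) | ∀ u : EuclideanSpace ℝ (Fin n), ‖u‖ = 1 →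
      inner ℝ x u ≤ (α * hh K u ^ p + β * hh C u ^ p) ^ (1 / p)}).toReal ^ (p / n) =
    α * (volume K).toReal ^ (p / n) + β * (volume C).toReal ^ (p / n) ↔
      ∃ t : ℝ, 0 < t ∧ C = (fun x : EuclideanSpace ℝ (Fin n) => t • x) '' K) := by
  have hHH := t_HH
  have hWSB := t_WSB
  have hACTZ := a_ACTZ
  have hGRAD := a_GRAD
  have hGRH := t_GRH
  have hDENSE := a_DENSE
  have hSAMEV := a_SAMEV

  have hnR : (0 : ℝ) < n := by exact_mod_cast hn
  obtain ⟨hKP, hKW, hKpos, -, -, -, -, -, -, -⟩ := hHH n K hK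
  obtain ⟨hCP, hCW, hCpos, -, -, -, -, -, -, -⟩ := hHH n C hC
  have hF : PH (cmb p α β (hh K) (hh C)) := PH_cmb hp hα hβ hKP hCP
  have hset := set_eq hF
  have hset' : {x : EuclideanSpace ℝ (Fin n) | ∀ u : EuclideanSpace ℝ (Fin n), ‖u‖ = 1 →
    inner ℝ x u ≤ (α * hh K u ^ p + β * hh C u ^ p) ^ (1 / p)} = Wu (cmb p α β (hh K) (hh C)) :=
    hset
  rw [hset']
  set f := cmb p α β (hh K) (hh C) with hf
  set M := Wu f with hMdef
  have hM : SB M := (hWSB n f hF).1
  obtain ⟨-, -, hMpos, hMfin, -, -, -, -, -, -⟩ := hHH n M hM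
  have hact := hACTZ n f hn hF
  have hgrad := hGRAD n M hn hM
  obtain ⟨hmeas, -, -⟩ := hGRH n M hM
  have hae : ∀ᵐ x : EuclideanSpace ℝ (Fin n), gg M x ≠ 0 ∧ f (gg M x) = 1 := by
    filter_upwards [hact, hgrad] with x h1 h2
    exact ⟨h2.2.2.1, h1⟩
  have hintK : IntegrableOn (fun x => Real.log (hh K (gg M x))) M :=
    integrable hn hF hKP hmeas hae hMfin.ne
  have hintC : IntegrableOn (fun x => Real.log (hh C (gg M x))) M :=
    integrable hn hF hCP hmeas hae hMfin.ne
  have hLK := hMK
  have hLC := hMC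
  unfold LM at hLK hLC
  change α * volume.real K ^ (p / n) + β * volume.real C ^ (p / n) ≤ volume.real M ^ (p / n) ∧
    (volume.real M ^ (p / n) = α * volume.real K ^ (p / n) + β * volume.real C ^ (p / n) ↔ _)
  obtain ⟨k, hk⟩ : ∃ k, k = volume.real K := ⟨_, rfl⟩
  obtain ⟨c, hc⟩ : ∃ c, c = volume.real C := ⟨_, rfl⟩
  obtain ⟨V, hV⟩ : ∃ V, V = volume.real M := ⟨_, rfl⟩
  rw [← hk, ← hV] at hLK
  rw [← hc, ← hV] at hLC
  rw [← hk] at hKpos
  rw [← hc] at hCpos
  rw [← hV] at hMpos
  rw [← hk, ← hc, ← hV]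
  obtain ⟨a, ha⟩ : ∃ a, a = α * k ^ (p / n) := ⟨_, rfl⟩
  obtain ⟨b, hb⟩ : ∃ b, b = β * c ^ (p / n) := ⟨_, rfl⟩
  have ha0 : 0 < a := by rw [ha]; positivity
  have hb0 : 0 < b := by rw [hb]; positivity
  obtain ⟨la, hla⟩ : ∃ la, la = a / (a + b) := ⟨_, rfl⟩
  obtain ⟨lb, hlb⟩ : ∃ lb, lb = b / (a + b) := ⟨_, rfl⟩
  have hla0 : 0 < la := by rw [hla]; positivity
  have hlb0 : 0 < lb := by rw [hlb]; positivity
  have hl1 : la + lb = 1 := by rw [hla, hlb]; field_simp
  have hloga : Real.log a = Real.log α + p / n * Real.log k := by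
    rw [ha, Real.log_mul hα.ne' (by positivity), Real.log_rpow hKpos]
  have hlogb : Real.log b = Real.log β + p / n * Real.log c := by
    rw [hb, Real.log_mul hβ.ne' (by positivity), Real.log_rpow hCpos]
  have hlogla : Real.log la = Real.log a - Real.log (a + b) := by
    rw [hla, Real.log_div ha0.ne' (by positivity)]
  have hloglb : Real.log lb = Real.log b - Real.log (a + b) := by
    rw [hlb, Real.log_div hb0.ne' (by positivity)]
  -- the pointwise inequality
  have hpt : ∀ᵐ x : EuclideanSpace ℝ (Fin n),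
      (la * (Real.log α - Real.log la) + lb * (Real.log β - Real.log lb) +
        p * la * Real.log (hh K (gg M x)) + p * lb * Real.log (hh C (gg M x)) ≤ 0) ∧
      (la * (Real.log α - Real.log la) + lb * (Real.log β - Real.log lb) +
        p * la * Real.log (hh K (gg M x)) + p * lb * Real.log (hh C (gg M x)) = 0 →
        α * hh K (gg M x) ^ p = la ∧ β * hh C (gg M x) ^ p = lb) := by
    filter_upwards [hae] with x hx
    have h1 := hKP.pos _ hx.1
    have h2 := hCP.pos _ hx.1
    refine pt hα hβ hla0 hlb0 hl1 h1 h2 ?_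
    have h3 : (α * hh K (gg M x) ^ p + β * hh C (gg M x) ^ p) ^ (1 / p) = 1 := hx.2
    have h4 : 0 < α * hh K (gg M x) ^ p + β * hh C (gg M x) ^ p := by positivity
    have h5 : ((α * hh K (gg M x) ^ p + β * hh C (gg M x) ^ p) ^ (1 / p)) ^ p = (1 : ℝ) ^ p := by
      rw [h3]
    rwa [← Real.rpow_mul h4.le, one_div_mul_cancel hp.ne', Real.rpow_one, Real.one_rpow] at h5
  have hconst : IntegrableOn (fun _ : EuclideanSpace ℝ (Fin n) =>
      la * (Real.log α - Real.log la) + lb * (Real.log β - Real.log lb)) M :=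
    integrableOn_const hMfin.ne
  have hI1 : IntegrableOn (fun x => la * (Real.log α - Real.log la) +
      lb * (Real.log β - Real.log lb) + p * la * Real.log (hh K (gg M x))) M :=
    hconst.add (hintK.const_mul (p * la))
  have hI2 : IntegrableOn (fun x => la * (Real.log α - Real.log la) +
      lb * (Real.log β - Real.log lb) + p * la * Real.log (hh K (gg M x)) +
      p * lb * Real.log (hh C (gg M x))) M :=
    hI1.add (hintC.const_mul (p * lb))
  have hval : ∫ x in M, (la * (Real.log α - Real.log la) + lb * (Real.log β - Real.log lb) +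
        p * la * Real.log (hh K (gg M x)) + p * lb * Real.log (hh C (gg M x))) =
      V * (la * (Real.log α - Real.log la) + lb * (Real.log β - Real.log lb)) +
        p * la * (∫ x in M, Real.log (hh K (gg M x))) +
        p * lb * (∫ x in M, Real.log (hh C (gg M x))) := by
    rw [integral_add hI1 (hintC.const_mul (p * lb)), integral_add hconst (hintK.const_mul (p * la)),
      integral_const_mul, integral_const_mul, setIntegral_const, smul_eq_mul, ← hV]
  have hup : ∫ x in M, (la * (Real.log α - Real.log la) + lb * (Real.log β - Real.log lb) +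
        p * la * Real.log (hh K (gg M x)) + p * lb * Real.log (hh C (gg M x))) ≤ 0 :=
    integral_nonpos_of_ae (ae_restrict_of_ae (hpt.mono fun x hx => hx.1))
  have hlow : V * (Real.log (a + b) - p / n * Real.log V) ≤
      ∫ x in M, (la * (Real.log α - Real.log la) + lb * (Real.log β - Real.log lb) +
        p * la * Real.log (hh K (gg M x)) + p * lb * Real.log (hh C (gg M x))) := by
    rw [hval]
    have h1 := mul_le_mul_of_nonneg_left hLK (by positivity : 0 ≤ p * la)
    have h2 := mul_le_mul_of_nonneg_left hLC (by positivity : 0 ≤ p * lb)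
    rw [Real.log_div hKpos.ne' hMpos.ne'] at h1
    rw [Real.log_div hCpos.ne' hMpos.ne'] at h2
    have h3 : V * (Real.log (a + b) - p / n * Real.log V) =
        V * (la * (Real.log α - Real.log la) + lb * (Real.log β - Real.log lb)) +
        p * la * (V / n * (Real.log k - Real.log V)) +
        p * lb * (V / n * (Real.log c - Real.log V)) := by
      rw [hlogla, hloglb, hloga, hlogb]
      have h4 : lb = 1 - la := by linarith
      rw [h4]
      field_simp
      ring
    rw [h3]
    linarith
  have hVpn : Real.log (V ^ (p / n)) = p / n * Real.log V := Real.log_rpow hMpos _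
  refine ⟨?_, ?_, ?_⟩
  · rw [← ha, ← hb]
    have h1 : V * (Real.log (a + b) - p / n * Real.log V) ≤ 0 := hlow.trans hup
    have h2 : Real.log (a + b) ≤ Real.log (V ^ (p / n)) := by
      rw [hVpn]
      by_contra h3
      push Not at h3
      have := mul_pos hMpos (sub_pos.2 h3)
      linarith
    exact (Real.log_le_log_iff (by positivity) (by positivity)).1 h2
  · intro heq
    rw [← ha, ← hb] at heq
    have h0 : ∫ x in M, (la * (Real.log α - Real.log la) + lb * (Real.log β - Real.log lb) +
        p * la * Real.log (hh K (gg M x)) + p * lb * Real.log (hh C (gg M x))) = 0 := by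
      apply le_antisymm hup
      have h1 : Real.log (a + b) - p / n * Real.log V = 0 := by rw [← heq, hVpn, sub_self]
      rw [h1, mul_zero] at hlow
      exact hlow
    have h1 : ∀ᵐ x ∂(volume.restrict M), (la * (Real.log α - Real.log la) +
        lb * (Real.log β - Real.log lb) +
        p * la * Real.log (hh K (gg M x)) + p * lb * Real.log (hh C (gg M x))) = 0 := by
      have h2 : 0 ≤ᵐ[volume.restrict M] fun x => -(la * (Real.log α - Real.log la) +
        lb * (Real.log β - Real.log lb) +
        p * la * Real.log (hh K (gg M x)) + p * lb * Real.log (hh C (gg M x))) :=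
        ae_restrict_of_ae (hpt.mono fun x hx => neg_nonneg.2 hx.1)
      have h3 := (integral_eq_zero_iff_of_nonneg_ae h2 hI2.neg).1 (by
        rw [integral_neg, h0, neg_zero])
      exact h3.mono fun x hx => neg_eq_zero.1 hx
    rw [ae_restrict_iff' hM.comp.measurableSet] at h1
    -- constants
    have key : ∀ (γ l e : ℝ) (L : Set (EuclideanSpace ℝ (Fin n))), 0 < γ → 0 < l → 0 < e → SB L →
        volume.real L = e → l = γ * e ^ (p / n) / (a + b) → PH (hh L) →
        (∀ᵐ x : EuclideanSpace ℝ (Fin n), x ∈ M → γ * hh L (gg M x) ^ p = l) →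
        0 < (l / γ) ^ (1 / p) ∧ L = (l / γ) ^ (1 / p) • M := by
      intro γ l e L hγ hl he hL hLe hle hLP hL1
      have hpos : 0 < (l / γ) ^ (1 / p) := by positivity
      have hsub : L ⊆ (l / γ) ^ (1 / p) • M := by
        refine hDENSE n M L _ hn hM hL hpos ?_
        filter_upwards [hL1, hae] with x hx hx' hxM
        have h5 := hLP.pos _ hx'.1
        have h6 : l / γ = hh L (gg M x) ^ p := by rw [← hx hxM]; field_simp
        rw [h6, ← Real.rpow_mul h5.le, mul_one_div_cancel hp.ne', Real.rpow_one]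
      refine ⟨hpos, hSAMEV n L _ hL (SB_smul hpos hM) hsub ?_⟩
      rw [vol_smul hpos, hLe, ← hV]
      have h7 : l / γ = (e / V) ^ (p / n) := by
        rw [hle, ← heq, Real.div_rpow he.le hMpos.le]
        field_simp
      have h8 : ((l / γ) ^ (1 / p)) ^ n = e / V := by
        rw [h7, ← Real.rpow_natCast, ← Real.rpow_mul (by positivity),
          ← Real.rpow_mul (by positivity)]
        have h9 : p / n * (1 / p * n) = 1 := by field_simp
        rw [h9, Real.rpow_one]
      rw [h8]
      apply le_of_eq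
      field_simp
    obtain ⟨hcK, hKeq⟩ := key α la k K hα hla0 hKpos hK hk.symm (by rw [hla, ha]) hKP (by
      filter_upwards [h1, hpt] with x hx hx' hxM
      exact (hx'.2 (hx hxM)).1)
    obtain ⟨hcC, hCeq⟩ := key β lb c C hβ hlb0 hCpos hC hc.symm (by rw [hlb, hb]) hCP (by
      filter_upwards [h1, hpt] with x hx hx' hxM
      exact (hx'.2 (hx hxM)).2)
    refine ⟨(lb / β) ^ (1 / p) / (la / α) ^ (1 / p), by positivity, ?_⟩
    have h5 : (fun x : EuclideanSpace ℝ (Fin n) =>
        ((lb / β) ^ (1 / p) / (la / α) ^ (1 / p)) • x) '' K =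
        ((lb / β) ^ (1 / p) / (la / α) ^ (1 / p)) • K := Set.image_smul
    rw [h5]
    conv_rhs => rw [hKeq]
    rw [smul_smul, div_mul_cancel₀ _ hcK.ne']
    exact hCeq
  · rintro ⟨t, ht, hCt⟩
    have hs0 : 0 < (α + β * t ^ p) ^ (1 / p) := by positivity
    have hfs : ∀ u, f u = (α + β * t ^ p) ^ (1 / p) * hh K u := by
      intro u
      have h1 : hh C u = t * hh K u := by rw [hCt, hh_smul ht]
      have h2 := nonneg_of_PH hKP u
      show (α * hh K u ^ p + β * hh C u ^ p) ^ (1 / p) = _
      rw [h1, Real.mul_rpow ht.le h2]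
      have h3 : α * hh K u ^ p + β * (t ^ p * hh K u ^ p) = (α + β * t ^ p) * hh K u ^ p := by ring
      rw [h3, Real.mul_rpow (by positivity) (by positivity), ← Real.rpow_mul h2,
        mul_one_div_cancel hp.ne', Real.rpow_one]
    have hMK : M = (α + β * t ^ p) ^ (1 / p) • K := by
      ext x
      rw [Set.mem_smul_set_iff_inv_smul_mem₀ hs0.ne', ← hKW]
      constructor
      · intro hx u hu
        have h1 := hx u hu
        rw [hfs] at h1
        rw [real_inner_smul_left, inv_mul_le_iff₀ hs0]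
        exact h1
      · intro hx u hu
        have h1 := hx u hu
        rw [real_inner_smul_left, inv_mul_le_iff₀ hs0] at h1
        rw [hfs]
        exact h1
    have hVs : V = ((α + β * t ^ p) ^ (1 / p)) ^ n * k := by
      rw [hV, hMK, vol_smul hs0, hk]
    have hct : c = t ^ n * k := by
      have h1 : (fun x : EuclideanSpace ℝ (Fin n) => t • x) '' K = t • K := Set.image_smul
      rw [hc, hCt, h1, vol_smul ht, hk]
    have hpow : ∀ s : ℝ, 0 < s → (s ^ n * k) ^ (p / n) = s ^ p * k ^ (p / n) := by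
      intro s hs
      rw [Real.mul_rpow (by positivity) hKpos.le, ← Real.rpow_natCast, ← Real.rpow_mul hs.le]
      have : (n : ℝ) * (p / n) = p := by field_simp
      rw [this]
    rw [hVs, hct, hpow _ hs0, hpow _ ht, ← Real.rpow_mul (by positivity),
      one_div_mul_cancel hp.ne', Real.rpow_one]
    ring


/-- the half -/
theorem un_half (hHH : S_HH) (hGRAD : S_GRAD) (hGRH : S_GRH) {n : ℕ} {p : ℝ}
    {K C : Set (EuclideanSpace ℝ (Fin n))} (hn : 1 ≤ n) (hp : 0 < p) (hp1 : p < 1)
    (hK : SB K) (hC : SB C) (hKC : LM K C) (h : SLp p K = SLp p C) :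
    IntegrableOn (fun x => Real.exp (p * Real.log (hh C (gg K x)))) K ∧
    ∫ x in K, Real.exp (p * Real.log (hh C (gg K x))) = volume.real C ∧
      volume.real K ≤ volume.real C := by
  have hs := UNI_s hHH hGRAD hGRH hn hK hC
  have hvK : 0 < volume.real K := (hHH n K hK).2.2.1
  have hvC : 0 < volume.real C := (hHH n C hC).2.2.1
  have hfin : volume K ≠ ⊤ := (hHH n K hK).2.2.2.1.ne
  have hmC : Measurable (hh C) := UNI_meas (hHH n C hC).1
  have hg := (hGRH n K hK).1
  have hmeas : Measurable fun x => Real.exp (p * Real.log (hh C (gg K x))) :=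
    Real.measurable_exp.comp ((Real.measurable_log.comp (hmC.comp hg)).const_mul p)
  have h1 := UNI_int hHH hGRAD hGRH (p := p) hn hK hC
  rw [h, UNI_int hHH hGRAD hGRH (p := p) hn hC hC, UNI_one hGRAD hn hC] at h1
  have hn0 : (n : ENNReal) ≠ 0 := by
    simp
    omega
  have h2 : ∫⁻ x in K, ENNReal.ofReal (hh C (gg K x) ^ p) = volume C :=
    ((ENNReal.mul_right_inj hn0 (ENNReal.natCast_ne_top n)).1 h1).symm
  have h3 : ∫⁻ x in K, ENNReal.ofReal (Real.exp (p * Real.log (hh C (gg K x)))) = volume C := by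
    rw [← h2]
    apply lintegral_congr_ae
    filter_upwards [ae_restrict_of_ae (hGRAD n K hn hK)] with x hx
    obtain ⟨-, -, hg0, -, hg1, -, -⟩ := hx
    rw [Real.rpow_def_of_pos ((hHH n C hC).1.pos _ hg0), mul_comm]
  have hi : IntegrableOn (fun x => Real.exp (p * Real.log (hh C (gg K x)))) K := by
    refine ⟨hmeas.aestronglyMeasurable, ?_⟩
    rw [hasFiniteIntegral_iff_ofReal (Eventually.of_forall fun x => (Real.exp_pos _).le), h3]
    exact (hHH n C hC).2.2.2.1
  have h4 : ∫ x in K, Real.exp (p * Real.log (hh C (gg K x))) = volume.real C := by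
    rw [integral_eq_lintegral_of_nonneg_ae (Eventually.of_forall fun x => (Real.exp_pos _).le)
      hmeas.aestronglyMeasurable, h3]
    rfl
  refine ⟨hi, h4, ?_⟩
  -- Jensen
  have hL := hKC
  unfold LM at hL
  set I : ℝ := ∫ x in K, Real.log (hh C (gg K x)) with hI
  set c : ℝ := p * I / volume.real K with hc
  have hJ : volume.real K * Real.exp c ≤ volume.real C := by
    rw [← h4]
    have h5 : ∫ x in K, (Real.exp c + Real.exp c * (p * Real.log (hh C (gg K x)) - c)) =
        volume.real K * Real.exp c := by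
      rw [integral_add, integral_const_mul, integral_sub, integral_const_mul, setIntegral_const,
        setIntegral_const, ← hI, hc]
      · simp only [smul_eq_mul]
        field_simp
        ring
      · exact hs.const_mul p
      · exact integrableOn_const hfin
      · exact integrableOn_const hfin
      · exact ((hs.const_mul p).sub (integrableOn_const hfin)).const_mul _
    rw [← h5]
    refine setIntegral_mono ((integrableOn_const hfin).add
      (((hs.const_mul p).sub (integrableOn_const hfin)).const_mul _)) hi fun x => ?_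
    have h6 := Real.add_one_le_exp (p * Real.log (hh C (gg K x)) - c)
    have h7 := mul_le_mul_of_nonneg_left h6 (Real.exp_pos c).le
    rw [← Real.exp_add, add_sub_cancel] at h7
    simp only
    linarith
  by_contra hlt
  rw [not_le] at hlt
  have hlog : Real.log (volume.real C / volume.real K) < 0 :=
    Real.log_neg (div_pos hvC hvK) ((div_lt_one hvK).2 hlt)
  have h8 : c ≤ Real.log (volume.real C / volume.real K) := by
    rw [Real.le_log_iff_exp_le (div_pos hvC hvK), le_div_iff₀ hvK]
    linarith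
  have h9 : p / n * Real.log (volume.real C / volume.real K) ≤ c := by
    rw [hc, le_div_iff₀ hvK]
    have := mul_le_mul_of_nonneg_left hL hp.le
    calc _ = p * (volume.real K / n * Real.log (volume.real C / volume.real K)) := by ring
      _ ≤ _ := this
  have hn1 : (1 : ℝ) ≤ n := by exact_mod_cast hn
  have h10 : p / n < 1 := by
    rw [div_lt_one (by linarith)]
    linarith
  nlinarith

theorem un_of_LM {n : ℕ} {p : ℝ} {K C : Set (EuclideanSpace ℝ (Fin n))} (hn : 1 ≤ n)
    (hp : 0 < p) (hp1 : p < 1) (hK : SB K) (hC : SB C) (hKC : LM K C) (hCK : LM C K)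
    (h : SLp p K = SLp p C) : K = C := by
  have hHH := t_HH
  have hGRAD := a_GRAD
  have hGRH := t_GRH
  have hDENSE := a_DENSE
  have hSAMEV := a_SAMEV
  obtain ⟨hi, hint, h1⟩ := un_half hHH hGRAD hGRH hn hp hp1 hK hC hKC h
  obtain ⟨-, -, h2⟩ := un_half hHH hGRAD hGRH hn hp hp1 hC hK hCK h.symm
  have hv : volume.real K = volume.real C := le_antisymm h1 h2
  have hs := UNI_s hHH hGRAD hGRH hn hK hC
  have hvK : 0 < volume.real K := (hHH n K hK).2.2.1
  have hfin : volume K ≠ ⊤ := (hHH n K hK).2.2.2.1.ne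
  have hL := hKC
  unfold LM at hL
  rw [← hv, div_self hvK.ne', Real.log_one, mul_zero] at hL
  have hD : ∀ x, 0 ≤ Real.exp (p * Real.log (hh C (gg K x))) -
      (1 + p * Real.log (hh C (gg K x))) := by
    intro x
    have := Real.add_one_le_exp (p * Real.log (hh C (gg K x)))
    linarith
  have hi1 : IntegrableOn (fun _ : EuclideanSpace ℝ (Fin n) => (1 : ℝ)) K :=
    integrableOn_const hfin
  have hi2 : IntegrableOn (fun x => p * Real.log (hh C (gg K x))) K := hs.const_mul p
  have hi3 : IntegrableOn (fun x => 1 + p * Real.log (hh C (gg K x))) K := hi1.add hi2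
  have hDi : IntegrableOn (fun x => Real.exp (p * Real.log (hh C (gg K x))) -
      (1 + p * Real.log (hh C (gg K x)))) K := hi.sub hi3
  have h0 : ∫ x in K, (Real.exp (p * Real.log (hh C (gg K x))) -
      (1 + p * Real.log (hh C (gg K x)))) = 0 := by
    apply le_antisymm _ (integral_nonneg hD)
    rw [integral_sub hi hi3, integral_add hi1 hi2, integral_const_mul,
      setIntegral_const, hint, hv]
    simp only [smul_eq_mul]
    nlinarith
  rw [setIntegral_eq_zero_iff_of_nonneg_ae (Eventually.of_forall hD) hDi] at h0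
  have hle : ∀ᵐ x : EuclideanSpace ℝ (Fin n), x ∈ K → hh C (gg K x) ≤ 1 := by
    have h3 := (ae_restrict_iff' hK.comp.measurableSet).1 h0
    filter_upwards [h3, hGRAD n K hn hK] with x hx hx' hxK
    obtain ⟨-, -, hg0, -, -, -, -⟩ := hx'
    have hpos := (hHH n C hC).1.pos _ hg0
    have h4 := hx hxK
    simp only [Pi.zero_apply] at h4
    by_cases h5 : p * Real.log (hh C (gg K x)) = 0
    · have h6 : Real.log (hh C (gg K x)) = 0 := by
        rcases mul_eq_zero.1 h5 with h7 | h7
        · exact absurd h7 hp.ne'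
        · exact h7
      have h7 := Real.exp_log hpos
      rw [h6, Real.exp_zero] at h7
      exact h7.symm.le
    · have h6 := Real.add_one_lt_exp h5
      linarith
  have hsub := hDENSE n K C 1 hn hK hC one_pos hle
  rw [one_smul] at hsub
  exact (hSAMEV n C K hC hK hsub hv.le).symm


open LPZ in
theorem lin_cmb {n : ℕ} (Φ : EuclideanSpace ℝ (Fin n) ≃L[ℝ] EuclideanSpace ℝ (Fin n))
    (p α β : ℝ) (K C : Set (EuclideanSpace ℝ (Fin n))) :
    Wu (cmb p α β (hh (Φ '' K)) (hh (Φ '' C))) = Φ '' Wu (cmb p α β (hh K) (hh C)) := by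
  rw [← lin_wu]
  unfold cmb
  simp_rw [lin_hh]

open LPZ in
/-- the `L_p`-Brunn-Minkowski inequality for `Refl2` -/
theorem refl2_LP {n : ℕ} {K C : Set (EuclideanSpace ℝ (Fin n))} {p α β : ℝ} (hn : 2 ≤ n)
    (hK : SB K) (hC : SB C) (h : Refl2 K C) (hp : 0 < p) (hα : 0 < α)
    (hβ : 0 < β) :
    LM (Wu (cmb p α β (hh K) (hh C))) K ∧ LM (Wu (cmb p α β (hh K) (hh C))) C := by
  have hM : SB (Wu (cmb p α β (hh K) (hh C))) :=
    (t_WSB n _ (PH_cmb hp hα hβ (t_HH n K hK).1 (t_HH n C hC).1)).1
  obtain ⟨Φ, h1, h2⟩ := h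
  have h3 : Ref (Φ '' Wu (cmb p α β (hh K) (hh C))) := by
    rw [← lin_cmb]
    exact LPR_Ref hp h1 h2
  exact ⟨refl2_LM hn hM hK ⟨Φ, h3, h1⟩, refl2_LM hn hM hC ⟨Φ, h3, h2⟩⟩

private theorem LMC_meas {n : ℕ} {f : EuclideanSpace ℝ (Fin n) → ℝ} (hf : PH f) :
    Measurable f :=
  measurable_of_continuousOn_compl_singleton 0 (by
    have : ({0}ᶜ : Set (EuclideanSpace ℝ (Fin n))) = {u | u ≠ 0} := by
      ext u; simp
    rw [this]
    exact hf.cont)

private theorem LMC_ratio {n : ℕ} {f g : EuclideanSpace ℝ (Fin n) → ℝ} (hf : PH f) (hg : PH g)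
    (v : EuclideanSpace ℝ (Fin n)) (hv : v ≠ 0) (hv1 : g v = 1) :
    f (‖v‖⁻¹ • v) / g (‖v‖⁻¹ • v) = f v := by
  have hc : ‖v‖⁻¹ ≠ 0 := inv_ne_zero (norm_ne_zero_iff.mpr hv)
  rw [hf.hom _ _ hc, hg.hom _ _ hc, hv1, mul_one, mul_comm, mul_div_assoc,
    div_self (abs_ne_zero.mpr hc), mul_one]

/-- the log-Minkowski inequality in terms of the cone-volume measure -/
theorem lmc_of_LM {n : ℕ} {K L : Set (EuclideanSpace ℝ (Fin n))} (hn : 1 ≤ n) (hK : SB K)
    (hL : SB L) (hLM : LM K L) : coneVol K Set.univ = volume K ∧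
    coneVol K (Metric.sphere 0 1)ᶜ = 0 ∧
    Integrable (fun u => Real.log (hh L u / hh K u)) (coneVol K) ∧
    1 / (n : ℝ) * Real.log (volume.real L / volume.real K) ≤
      1 / volume.real K * ∫ u, Real.log (hh L u / hh K u) ∂(coneVol K) := by
  have hHH := t_HH
  have hGRAD := a_GRAD
  have hGRH := t_GRH
  obtain ⟨hPK, -, hvK, hvK', -⟩ := hHH n K hK
  obtain ⟨hPL, -, -, -, -⟩ := hHH n L hL
  obtain ⟨hgm, -, -⟩ := hGRH n K hK
  have hmeas : Measurable fun x => ‖gg K x‖⁻¹ • gg K x := hgm.norm.inv.smul hgm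
  have huniv : coneVol K Set.univ = volume K := by
    unfold coneVol
    rw [Measure.map_apply hmeas MeasurableSet.univ, Set.preimage_univ, Measure.restrict_apply_univ]
  have hae : ∀ᵐ x ∂(volume.restrict K), gg K x ≠ 0 ∧ hh K (gg K x) = 1 := by
    refine ae_restrict_of_ae ?_
    filter_upwards [hGRAD n K hn hK] with x hx
    exact ⟨hx.2.2.1, hx.2.2.2.2.1⟩
  have hsph : coneVol K (Metric.sphere 0 1)ᶜ = 0 := by
    unfold coneVol
    rw [Measure.map_apply hmeas Metric.isClosed_sphere.measurableSet.compl]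
    have h1 : ∀ᵐ x ∂(volume.restrict K), ¬ (x ∈ (fun x => ‖gg K x‖⁻¹ • gg K x) ⁻¹'
        (Metric.sphere 0 1)ᶜ) := by
      filter_upwards [hae] with x hx
      rw [Set.mem_preimage, Set.mem_compl_iff, not_not, mem_sphere_zero_iff_norm, norm_smul,
        norm_inv, norm_norm]
      exact inv_mul_cancel₀ (norm_ne_zero_iff.mpr hx.1)
    have h2 := ae_iff.mp h1
    simp only [not_not] at h2
    exact h2
  have : IsFiniteMeasure (coneVol K) := ⟨by rw [huniv]; exact hvK'⟩
  have hfm : Measurable fun u => Real.log (hh L u / hh K u) :=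
    Real.measurable_log.comp ((LMC_meas hPL).div (LMC_meas hPK))
  have hsne : ∀ u ∈ Metric.sphere (0 : EuclideanSpace ℝ (Fin n)) 1, u ≠ 0 := by
    intro u hu h0
    rw [mem_sphere_zero_iff_norm, h0, norm_zero] at hu
    exact zero_ne_one hu
  have hint : Integrable (fun u => Real.log (hh L u / hh K u)) (coneVol K) := by
    have hcont : ContinuousOn (fun u => Real.log (hh L u / hh K u))
        (Metric.sphere (0 : EuclideanSpace ℝ (Fin n)) 1) := by
      refine ContinuousOn.log (ContinuousOn.div (hPL.cont.mono hsne) (hPK.cont.mono hsne)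
        fun u hu => (hPK.pos u (hsne u hu)).ne') fun u hu => ?_
      exact (div_pos (hPL.pos u (hsne u hu)) (hPK.pos u (hsne u hu))).ne'
    obtain ⟨C, hC⟩ := (isCompact_sphere (0 : EuclideanSpace ℝ (Fin n)) 1).exists_bound_of_continuousOn
      hcont
    refine Integrable.of_bound hfm.aestronglyMeasurable C ?_
    have h1 : ∀ᵐ u ∂(coneVol K), u ∈ Metric.sphere (0 : EuclideanSpace ℝ (Fin n)) 1 := by
      rw [ae_iff]
      exact hsph
    filter_upwards [h1] with u hu
    exact hC u hu
  refine ⟨huniv, hsph, hint, ?_⟩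
  have hI : ∫ u, Real.log (hh L u / hh K u) ∂(coneVol K) =
      ∫ x in K, Real.log (hh L (gg K x)) := by
    unfold coneVol
    rw [integral_map hmeas.aemeasurable hfm.aestronglyMeasurable]
    refine integral_congr_ae ?_
    filter_upwards [hae] with x hx
    rw [LMC_ratio hPL hPK _ hx.1 hx.2]
  rw [hI]
  have h2 := hLM
  unfold LM at h2
  have hn' : (0 : ℝ) < n := by exact_mod_cast hn
  have h3 : 1 / (n : ℝ) * Real.log (volume.real L / volume.real K) =
      1 / volume.real K * (volume.real K / n * Real.log (volume.real L / volume.real K)) := by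
    field_simp
  rw [h3]
  exact mul_le_mul_of_nonneg_left h2 (by positivity)

end H354ZN
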