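import Pool.Agent.H314.ZN.All

/-!
# Linear covariance; the `L_p`-Minkowski problem and the `L_p`-Brunn-Minkowski inequality from the
log-Minkowski inequality of the given pairs
-/

set_option autoImplicit false

open MeasureTheory Filter
open scoped Matrix Pointwise Topology ENNReal

namespace H354ZN

variable {n : ℕ}

/-- Euclidean space -/
abbrev Eu (n : ℕ) : Type := EuclideanSpace ℝ (Fin n)

theorem lin_inner (Φ : Eu n ≃L[ℝ] Eu n) (x u : Eu n) :
    inner ℝ (Φ x) u = inner ℝ x (ContinuousLinearMap.adjoint (Φ : Eu n →L[ℝ] Eu n) u) := by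
  rw [ContinuousLinearMap.adjoint_inner_right]
  rfl

theorem lin_adj_ne (Φ : Eu n ≃L[ℝ] Eu n) {u : Eu n} (hu : u ≠ 0) :
    ContinuousLinearMap.adjoint (Φ : Eu n →L[ℝ] Eu n) u ≠ 0 := by
  intro h
  apply hu
  have h1 : ∀ x : Eu n, inner ℝ (Φ x) u = 0 := fun x => by rw [lin_inner, h, inner_zero_right]
  have h2 := h1 (Φ.symm u)
  rw [ContinuousLinearEquiv.apply_symm_apply] at h2
  exact inner_self_eq_zero.1 h2

theorem lin_adj_adj (Φ : Eu n ≃L[ℝ] Eu n) (v : Eu n) :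
    ContinuousLinearMap.adjoint (Φ : Eu n →L[ℝ] Eu n)
      (ContinuousLinearMap.adjoint (Φ.symm : Eu n →L[ℝ] Eu n) v) = v := by
  refine ext_inner_left ℝ fun x => ?_
  rw [← lin_inner, ← lin_inner, ContinuousLinearEquiv.symm_apply_apply]

theorem lin_hh (Φ : Eu n ≃L[ℝ] Eu n) (K : Set (Eu n)) (u : Eu n) :
    hh (Φ '' K) u = hh K (ContinuousLinearMap.adjoint (Φ : Eu n →L[ℝ] Eu n) u) := by
  unfold hh
  rw [Set.image_image]
  simp_rw [lin_inner]

theorem lin_SB (Φ : Eu n ≃L[ℝ] Eu n) {K : Set (Eu n)} (hK : SB K) : SB (Φ '' K) := by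
  refine ⟨hK.conv.linear_image Φ.toLinearEquiv.toLinearMap, hK.comp.image Φ.continuous, ?_, ?_⟩
  · have h := Φ.toHomeomorph.image_interior K
    have h1 : interior (Φ '' K) = Φ '' interior K := h.symm
    rw [h1]
    exact ⟨0, hK.zero, map_zero Φ⟩
  · rintro _ ⟨x, hx, rfl⟩
    exact ⟨-x, hK.symm x hx, map_neg Φ x⟩

theorem lin_wu (Φ : Eu n ≃L[ℝ] Eu n) (f : Eu n → ℝ) :
    Wu (fun u => f (ContinuousLinearMap.adjoint (Φ : Eu n →L[ℝ] Eu n) u)) = Φ '' Wu f := by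
  ext x
  constructor
  · intro hx
    refine ⟨Φ.symm x, fun u hu => ?_, Φ.apply_symm_apply x⟩
    have h1 := hx (ContinuousLinearMap.adjoint (Φ.symm : Eu n →L[ℝ] Eu n) u) (lin_adj_ne Φ.symm hu)
    simp only [lin_adj_adj] at h1
    rw [lin_inner Φ.symm]
    exact h1
  · rintro ⟨y, hy, rfl⟩ u hu
    rw [lin_inner]
    exact hy _ (lin_adj_ne Φ hu)

theorem lin_vol (Φ : Eu n ≃L[ℝ] Eu n) : ∃ c : ℝ, 0 < c ∧
    (∀ s : Set (Eu n), volume (Φ '' s) = ENNReal.ofReal c * volume s) ∧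
    (∀ s : Set (Eu n), volume.real (Φ '' s) = c * volume.real s) ∧
    ∀ (K : Set (Eu n)) (F : Eu n → ℝ), MeasurableSet K →
      ∫ x in Φ '' K, F x = c * ∫ x in K, F (Φ x) := by
  refine ⟨|LinearMap.det (Φ.toLinearEquiv : Eu n →ₗ[ℝ] Eu n)|, ?_, ?_, ?_, ?_⟩
  · rw [abs_pos]
    exact (LinearEquiv.isUnit_det' Φ.toLinearEquiv).ne_zero
  · intro s
    exact Measure.addHaar_image_continuousLinearEquiv volume Φ s
  · intro s
    have h := Measure.addHaar_image_continuousLinearEquiv (volume : Measure (Eu n)) Φ s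
    show (volume (Φ '' s)).toReal = _ * (volume s).toReal
    rw [h, ENNReal.toReal_mul, ENNReal.toReal_ofReal (abs_nonneg _)]
  · intro K F hK
    have h := integral_image_eq_integral_abs_det_fderiv_smul (volume : Measure (Eu n)) (s := K)
      (f := Φ) (f' := fun _ => (Φ : Eu n →L[ℝ] Eu n)) hK
      (fun x _ => (Φ.hasFDerivAt (x := x)).hasFDerivWithinAt) Φ.injective.injOn F
    rw [h, ← integral_const_mul]
    rfl

theorem lin_gauge (Φ : Eu n ≃L[ℝ] Eu n) (K : Set (Eu n)) :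
    gauge (Φ '' K) = gauge K ∘ Φ.symm := by
  ext x
  show gauge (Φ '' K) x = gauge K (Φ.symm x)
  unfold gauge
  congr 1
  ext r
  simp only [Set.mem_ofPred_eq]
  refine and_congr_right fun hr => ?_
  rw [Set.mem_smul_set_iff_inv_smul_mem₀ hr.ne', Set.mem_smul_set_iff_inv_smul_mem₀ hr.ne']
  constructor
  · rintro ⟨y, hy, h⟩
    have : r⁻¹ • Φ.symm x = y := by
      rw [← map_smul, ← h, ContinuousLinearEquiv.symm_apply_apply]
    rw [this]
    exact hy
  · intro h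
    exact ⟨_, h, by rw [map_smul, ContinuousLinearEquiv.apply_symm_apply]⟩

theorem lin_gg (Φ : Eu n ≃L[ℝ] Eu n) (K : Set (Eu n)) (x : Eu n) :
    gg (Φ '' K) (Φ x) = ContinuousLinearMap.adjoint (Φ.symm : Eu n →L[ℝ] Eu n) (gg K x) := by
  unfold gg
  rw [lin_gauge]
  refine ext_inner_right ℝ fun v => ?_
  rw [ContinuousLinearMap.adjoint_inner_left]
  unfold gradient
  rw [InnerProductSpace.toDual_symm_apply, InnerProductSpace.toDual_symm_apply,
    ContinuousLinearEquiv.comp_right_fderiv, ContinuousLinearEquiv.symm_apply_apply]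
  rfl

/-- the log-Minkowski inequality for the pair `K`, `L` -/
def LM (K L : Set (Eu n)) : Prop :=
  volume.real K / n * Real.log (volume.real L / volume.real K) ≤
    ∫ x in K, Real.log (hh L (gg K x))

theorem lin_LM (Φ : Eu n ≃L[ℝ] Eu n) {K L : Set (Eu n)} (hK : SB K)
    (h : LM (Φ '' K) (Φ '' L)) : LM K L := by
  obtain ⟨c, hc, -, hv, hi⟩ := lin_vol Φ
  unfold LM at h ⊢
  rw [hv, hv, hi K _ hK.comp.measurableSet, mul_div_mul_left _ _ hc.ne'] at h
  have e : ∀ x, hh (Φ '' L) (gg (Φ '' K) (Φ x)) = hh L (gg K x) := fun x => by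
    rw [lin_gg, lin_hh, lin_adj_adj]
  simp_rw [e] at h
  have h2 : c * (volume.real K / n * Real.log (volume.real L / volume.real K)) ≤
      c * ∫ x in K, Real.log (hh L (gg K x)) := by
    calc _ = c * volume.real K / n * Real.log (volume.real L / volume.real K) := by ring
      _ ≤ _ := h
  exact le_of_mul_le_mul_left h2 hc

theorem lin_LC (Φ : Eu n ≃L[ℝ] Eu n) (K L : Set (Eu n)) (t : ℝ) :
    LC (Φ '' K) (Φ '' L) t = Φ '' LC K L t := by
  unfold LC
  rw [← lin_wu]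
  simp_rw [lin_hh]

/-- `K` and `L` are, after a linear change of coordinates, invariant under the reflections in
`n - 2` coordinate hyperplanes -/
def Refl2 (K L : Set (Eu n)) : Prop :=
  ∃ Φ : Eu n ≃L[ℝ] Eu n, Ref (Φ '' K) ∧ Ref (Φ '' L)

theorem refl2_LM (hn : 2 ≤ n) {K L : Set (Eu n)} (hK : SB K) (hL : SB L) (h : Refl2 K L) :
    LM K L := by
  obtain ⟨Φ, h1, h2⟩ := h
  exact lin_LM Φ hK (a_LMR n _ _ hn (lin_SB Φ hK) (lin_SB Φ hL) h1 h2)

theorem zonoid_LM (hn : 1 ≤ n) {K L : Set (Eu n)} (hK : SB K) (hL : SB L) (h : IsZonoid K) :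
    LM K L := a_LMZ n K L hn hK h hL

/-- log-Brunn-Minkowski for `Refl2` -/
theorem refl2_BM (hn : 2 ≤ n) {K L : Set (Eu n)} (hK : SB K) (hL : SB L) (h : Refl2 K L) (t : ℝ)
    (ht0 : 0 < t) (ht1 : t < 1) : volume K ^ (1 - t) * volume L ^ t ≤ volume (LC K L t) := by
  obtain ⟨Φ, h1, h2⟩ := h
  obtain ⟨c, hc, hv, -, -⟩ := lin_vol Φ
  have h3 := a_LB n hn (Φ '' K) (Φ '' L) t (lin_SB Φ hK) (lin_SB Φ hL) h1 h2 ht0 ht1
  rw [lin_LC, hv, hv, hv, ENNReal.mul_rpow_of_nonneg _ _ (by linarith),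
    ENNReal.mul_rpow_of_nonneg _ _ ht0.le] at h3
  have hc0 : ENNReal.ofReal c ≠ 0 := by
    rw [Ne, ENNReal.ofReal_eq_zero, not_le]
    exact hc
  have hc1 : ENNReal.ofReal c ≠ ⊤ := ENNReal.ofReal_ne_top
  have e : ENNReal.ofReal c ^ (1 - t) * ENNReal.ofReal c ^ t = ENNReal.ofReal c := by
    rw [← ENNReal.rpow_add _ _ hc0 hc1, sub_add_cancel, ENNReal.rpow_one]
  have h4 : ENNReal.ofReal c * (volume K ^ (1 - t) * volume L ^ t) ≤
      ENNReal.ofReal c * volume (LC K L t) := by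
    calc _ = (ENNReal.ofReal c ^ (1 - t) * ENNReal.ofReal c ^ t) *
          (volume K ^ (1 - t) * volume L ^ t) := by rw [e]
      _ = ENNReal.ofReal c ^ (1 - t) * volume K ^ (1 - t) *
          (ENNReal.ofReal c ^ t * volume L ^ t) := by ring
      _ ≤ _ := h3
  exact (ENNReal.mul_le_mul_iff_right hc0 hc1).1 h4

end H354ZN
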